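import Pool.Agent.H381R4.BP.Final

/-!
Task FIN1 (helper368): the real-valued final statement.
-/

set_option autoImplicit false
open MeasureTheory

namespace Pool.Agent.H381BP.Fin

open Pool.Agent.H381BP

theorem FIN1_le {a b : ENNReal} (ha : a ≠ ⊤) (hb : b ≠ ⊤) {s : ℝ} (hs : 0 ≤ s)
    (h : a.toReal ≤ b.toReal + s) : a ≤ b + ENNReal.ofReal s := by
  rw [← ENNReal.ofReal_toReal ha, ← ENNReal.ofReal_toReal hb,
    ← ENNReal.ofReal_add ENNReal.toReal_nonneg hs]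
  exact ENNReal.ofReal_le_ofReal h

theorem FIN1_sec {n : ℕ} {K : Set (EuclideanSpace ℝ (Fin n))} (hK : Bornology.IsBounded K)
    (F : Submodule ℝ (EuclideanSpace ℝ (Fin n))) :
    volume {w : F | (w : EuclideanSpace ℝ (Fin n)) ∈ K} ≠ ⊤ := by
  have h1 : Bornology.IsBounded {w : F | (w : EuclideanSpace ℝ (Fin n)) ∈ K} :=
    (isometry_subtype_coe (s := (F : Set (EuclideanSpace ℝ (Fin n))))).antilipschitz.isBounded_preimage hK
  exact h1.measure_lt_top.ne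

theorem T_FIN1 (h : S_GEN) : S_FIN1 := by
  intro n m h1 h3 hmn K L hK hLm hLb hL0 s hs hF
  obtain ⟨Kc, Kconv, Kint, Ksym⟩ := hK
  have hg := h n m h1 h3 hmn K L Kc Kconv Kint Ksym hLm hLb hL0 (ENNReal.ofReal s)
    ENNReal.ofReal_ne_top (fun F hFm => FIN1_le (FIN1_sec Kc.isBounded F) (FIN1_sec hLb F) hs
      (hF F hFm))
  have t0 : (0 : ℝ) ≤ (m : ℝ) / n := by positivity
  have hVL : volume L ≠ ⊤ := hLb.measure_lt_top.ne
  have hom : om n ≠ ⊤ := (Metric.isBounded_closedBall.measure_lt_top).ne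
  have hom0 : om m ≠ 0 := (Metric.measure_closedBall_pos volume _ one_pos).ne'
  have hL1 : volume L ^ ((m : ℝ) / n) ≠ ⊤ := ENNReal.rpow_ne_top_of_nonneg t0 hVL
  have hcc : cc n m ≠ ⊤ := ENNReal.div_ne_top (ENNReal.rpow_ne_top_of_nonneg t0 hom) hom0
  have hsc : ENNReal.ofReal s * cc n m ≠ ⊤ := ENNReal.mul_ne_top ENNReal.ofReal_ne_top hcc
  have h4 := ENNReal.toReal_mono (ENNReal.add_ne_top.2 ⟨hL1, hsc⟩) hg
  rw [ENNReal.toReal_add hL1 hsc, ENNReal.toReal_mul, ENNReal.toReal_ofReal hs,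
    ← ENNReal.toReal_rpow, ← ENNReal.toReal_rpow] at h4
  have h5 : (cc n m).toReal = ballVol n ^ ((m : ℝ) / n) / ballVol m := by
    unfold cc
    rw [ENNReal.toReal_div, ← ENNReal.toReal_rpow]
    rfl
  rw [h5] at h4
  unfold vol
  linarith

end Pool.Agent.H381BP.Fin
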